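import Pool.Agent.MWT.Stmts

/-!
# Row PER of squad MWT: facts about the blocks of the big words
-/

set_option autoImplicit false

namespace Pool.Agent.MWT.H10

open Pool.Agent.Helper14_MV Pool.Agent.Helper2_MV Pool.Agent.MVD Pool.Agent.MWT

theorem mem_blk {r x : ℕ} : x ∈ (if r = 0 then [0] else
    (List.range 7).map (fun k => 7 * (r - 1) + k + 1)) ↔
      (r = 0 ∧ x = 0) ∨ (r ≠ 0 ∧ ∃ k < 7, x = 7 * (r - 1) + k + 1) := by
  split
  · rename_i h
    simp [h]
  · rename_i h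
    simp only [List.mem_map, List.mem_range]
    constructor
    · rintro ⟨k, hk, rfl⟩
      exact Or.inr ⟨h, k, hk, rfl⟩
    · rintro (⟨h1, -⟩ | ⟨-, k, hk, rfl⟩)
      · exact absurd h1 h
      · exact ⟨k, hk, rfl⟩

theorem per : PerStmt := by
  intro m R hR
  have hnd : R.Nodup := hR.nodup_iff.mpr List.nodup_range
  refine ⟨?_, ?_, ?_, ?_⟩
  · rw [R7, List.nodup_flatMap]
    refine ⟨?_, ?_⟩
    · intro r _
      split
      · simp
      · exact List.nodup_range.map (fun a b h => by simpa using h)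
    · refine hnd.imp ?_
      intro a b hab x hx hy
      rw [mem_blk] at hx hy
      rcases hx with ⟨h1, h2⟩ | ⟨h1, k, hk, h2⟩ <;> rcases hy with ⟨h3, h4⟩ | ⟨h3, l, hl, h4⟩ <;>
        omega
  · rw [R7, List.mem_flatMap]
    exact ⟨0, hR.mem_iff.mpr (by simp), by simp⟩
  · intro b hb
    rw [R7, List.mem_flatMap]
    refine ⟨b / 7 + 1, hR.mem_iff.mpr (by rw [List.mem_range]; omega), ?_⟩
    rw [mem_blk]
    exact Or.inr ⟨by omega, b % 7, by omega, by omega⟩
  · intro r hr
    rw [R7, List.mem_flatMap] at hr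
    obtain ⟨s, hs, hr⟩ := hr
    rw [hR.mem_iff, List.mem_range] at hs
    rw [mem_blk] at hr
    rcases hr with ⟨-, h2⟩ | ⟨h1, k, hk, h2⟩
    · exact Or.inl h2
    · exact Or.inr ⟨7 * (s - 1) + k, by omega, h2⟩

end Pool.Agent.MWT.H10
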